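import Pool.Agent.X60.NRDCore

set_option autoImplicit false

/-!
# MP_7c0615_lc: a Boolean predicate with non-redundancy between linear and quadratic

For bits `α β γ` let `enc α β γ` be the 12-tuple of the one-hot codes of the pairs `(α, β)`,
`(β, γ)`, `(γ, α)`, and let `P7` consist of the seven tuples `enc α β γ` with `α, β, γ` not all true.

Lower bound: the clauses are the triples `(i, j, k)`, and the variables belong to the pairs
`(i, j)`, `(j, k)`, `(k, i)`.

Upper bound: a tuple outside `P7` other than `enc true true true` violates a linear equation valid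
on `P7`, which gives at most `n + 1` clauses for each of six equations. For the clauses violated by
`enc true true true` one gets a bipartite graph with two edge labellings without nontrivial closed
walks of a certain shape, and Szemerédi's regularity lemma shows that it has `o(n²)` edges.
-/

namespace Pool.Agent.Results.MP_7c0615_lc.BetweenLinearAndQuadratic

open Filter Topology Finset

/-- The set `C` of clauses over the variables `V` is a non-redundant instance of `CSP(P)`: for
every clause `c` of `C` some assignment satisfies all clauses of `C` other than `c`, but not `c`. -/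
def NonRedundant {r : ℕ} {V : Type} (P : Set (Fin r → Bool)) (C : Finset (Fin r → V)) : Prop :=
  ∀ c ∈ C, ∃ ψ : V → Bool, (∀ c' ∈ C, c' ≠ c → ψ ∘ c' ∈ P) ∧ ψ ∘ c ∉ P

/-- `NRD P n`: the largest number of clauses of a non-redundant instance of `CSP(P)` on `n`
variables. -/
noncomputable def NRD {r : ℕ} (P : Set (Fin r → Bool)) (n : ℕ) : ℕ :=
  sSup {m | ∃ C : Finset (Fin r → Fin n), NonRedundant P C ∧ C.card = m}

/-- the one-hot codes of `(α, β)`, `(β, γ)`, `(γ, α)` -/
def enc (α β γ : Bool) : Fin 12 → Bool :=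
  ![α && β, α && !β, !α && β, !α && !β, β && γ, β && !γ, !β && γ, !β && !γ,
    γ && α, γ && !α, !γ && α, !γ && !α]

/-- the predicate: the seven codes of triples that are not all true -/
def P7 : Set (Fin 12 → Bool) := {s | ∃ α β γ : Bool, (α && β && γ) = false ∧ s = enc α β γ}

/-! ### basic facts on `NRD` -/

theorem bdd {r : ℕ} (P : Set (Fin r → Bool)) (n : ℕ) :
    BddAbove {m | ∃ C : Finset (Fin r → Fin n), NonRedundant P C ∧ C.card = m} := by
  refine ⟨(univ : Finset (Fin r → Fin n)).card, ?_⟩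
  rintro m ⟨C, -, rfl⟩
  exact card_le_univ C

theorem le_NRD {r n : ℕ} {P : Set (Fin r → Bool)} {C : Finset (Fin r → Fin n)}
    (h : NonRedundant P C) : C.card ≤ NRD P n :=
  le_csSup (bdd P n) ⟨C, h, rfl⟩

theorem exists_NRD {r : ℕ} (P : Set (Fin r → Bool)) (n : ℕ) :
    ∃ C : Finset (Fin r → Fin n), NonRedundant P C ∧ C.card = NRD P n := by
  have h : (NRD P n) ∈ {m | ∃ C : Finset (Fin r → Fin n), NonRedundant P C ∧ C.card = m} := by
    apply Nat.sSup_mem _ (bdd P n)
    refine ⟨0, ∅, ?_, rfl⟩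
    intro c hc
    simp at hc
  exact h

/-! ### the linear equations -/

/-- coefficients of the six equations -/
def coef : Fin 6 → Fin 12 → ℤ :=
  ![![1, 1, 1, 1, 0, 0, 0, 0, 0, 0, 0, 0],
    ![0, 0, 0, 0, 1, 1, 1, 1, 0, 0, 0, 0],
    ![0, 0, 0, 0, 0, 0, 0, 0, 1, 1, 1, 1],
    ![1, 1, 0, 0, 0, 0, 0, 0, -1, 0, -1, 0],
    ![1, 0, 1, 0, -1, -1, 0, 0, 0, 0, 0, 0],
    ![0, 0, 0, 0, 1, 0, 1, 0, -1, -1, 0, 0]]

/-- right hand sides -/
def rhs : Fin 6 → ℤ := ![1, 1, 1, 0, 0, 0]

/-- left hand side of equation `k` at the tuple `s` -/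
def ev (k : Fin 6) (s : Fin 12 → Bool) : ℤ := ∑ q, coef k q * ((s q).toNat : ℤ)

theorem ev_enc (k : Fin 6) (α β γ : Bool) : ev k (enc α β γ) = rhs k := by
  revert k α β γ
  decide

theorem onehot : ∀ b0 b1 b2 b3 : Bool, b0.toNat + b1.toNat + b2.toNat + b3.toNat = 1 →
    ∃ α β : Bool, b0 = (α && β) ∧ b1 = (α && !β) ∧ b2 = (!α && β) ∧ b3 = (!α && !β) := by
  decide

theorem marg1 : ∀ α β γ' α' : Bool, (α && β).toNat + (α && !β).toNat =
    (γ' && α').toNat + (!γ' && α').toNat → α' = α := by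
  decide

theorem marg2 : ∀ α β β' γ : Bool, (α && β).toNat + (!α && β).toNat =
    (β' && γ).toNat + (β' && !γ).toNat → β' = β := by
  decide

theorem marg3 : ∀ β' γ γ' α' : Bool, (β' && γ).toNat + (!β' && γ).toNat =
    (γ' && α').toNat + (γ' && !α').toNat → γ' = γ := by
  decide

theorem eq_enc {s : Fin 12 → Bool} (h : ∀ k, ev k s = rhs k) : ∃ α β γ, s = enc α β γ := by
  have h0 := h 0
  have h1 := h 1
  have h2 := h 2
  have h3 := h 3
  have h4 := h 4
  have h5 := h 5
  simp [ev, coef, rhs, Fin.sum_univ_succ] at h0 h1 h2 h3 h4 h5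
  obtain ⟨α, β, e0, e1, e2, e3⟩ := onehot (s 0) (s 1) (s 2) (s 3) (by omega)
  obtain ⟨β', γ, e4, e5, e6, e7⟩ := onehot (s 4) (s 5) (s 6) (s 7) (by omega)
  obtain ⟨γ', α', e8, e9, e10, e11⟩ := onehot (s 8) (s 9) (s 10) (s 11) (by omega)
  have hα : α' = α := marg1 α β γ' α' (by rw [← e0, ← e1, ← e8, ← e10]; omega)
  have hβ : β' = β := marg2 α β β' γ (by rw [← e0, ← e2, ← e4, ← e5]; omega)
  have hγ : γ' = γ := marg3 β' γ γ' α' (by rw [← e4, ← e6, ← e8, ← e9]; omega)
  subst hα hβ hγ
  refine ⟨α', β', γ', ?_⟩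
  funext q
  fin_cases q
  · exact e0
  · exact e1
  · exact e2
  · exact e3
  · exact e4
  · exact e5
  · exact e6
  · exact e7
  · exact e8
  · exact e9
  · exact e10
  · exact e11

theorem linear_bound {n r : ℕ} (H : Finset (Fin r → Fin n)) (a : Fin r → ℤ) (b : ℤ)
    (ψ : (Fin r → Fin n) → Fin n → Bool)
    (h1 : ∀ c ∈ H, ∀ c' ∈ H, c' ≠ c → ∑ q, a q * ((ψ c (c' q)).toNat : ℤ) = b)
    (h2 : ∀ c ∈ H, ∑ q, a q * ((ψ c (c q)).toNat : ℤ) ≠ b) : H.card ≤ n + 1 := by
  classical
  let w : H → (Option (Fin n) → ℚ) := fun c o =>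
    match o with
    | none => -(b : ℚ)
    | some v => ∑ q, if c.1 q = v then (a q : ℚ) else 0
  let φ : H → (Option (Fin n) → ℚ) := fun c o =>
    match o with
    | none => 1
    | some v => ((ψ c.1 v).toNat : ℚ)
  have hpair : ∀ c c' : H, ∑ o, w c' o * φ c o =
      ((∑ q, a q * ((ψ c.1 (c'.1 q)).toNat : ℤ) : ℤ) : ℚ) - b := by
    intro c c'
    rw [Fintype.sum_option]
    have e1 : w c' none * φ c none = -(b : ℚ) := by
      show -(b : ℚ) * 1 = _
      ring
    have e2 : ∑ v, w c' (some v) * φ c (some v) =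
        ((∑ q, a q * ((ψ c.1 (c'.1 q)).toNat : ℤ) : ℤ) : ℚ) := by
      show ∑ v, (∑ q, if c'.1 q = v then (a q : ℚ) else 0) * ((ψ c.1 v).toNat : ℚ) = _
      simp_rw [sum_mul]
      rw [sum_comm]
      push_cast
      apply sum_congr rfl
      intro q _
      rw [sum_eq_single (c'.1 q)]
      · rw [if_pos rfl]
      · intro v _ hv
        rw [if_neg (Ne.symm hv), zero_mul]
      · intro h
        exact absurd (mem_univ _) h
    rw [e1, e2]
    ring
  have hli : LinearIndependent ℚ w := by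
    rw [Fintype.linearIndependent_iff]
    intro g hg c
    have hsum : ∑ c', g c' * ∑ o, w c' o * φ c o = 0 := by
      have h3 : ∑ o, (∑ c', g c' • w c') o * φ c o = 0 := by
        rw [hg]
        simp
      rw [← h3]
      simp_rw [Finset.sum_apply, Pi.smul_apply, smul_eq_mul, sum_mul, mul_sum]
      rw [sum_comm]
      apply sum_congr rfl
      intro o _
      apply sum_congr rfl
      intro c' _
      ring
    rw [sum_eq_single c] at hsum
    · rw [hpair c c] at hsum
      rcases mul_eq_zero.1 hsum with h | h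
      · exact h
      · exfalso
        apply h2 c.1 c.2
        have : ((∑ q, a q * ((ψ c.1 (c.1 q)).toNat : ℤ) : ℤ) : ℚ) = (b : ℚ) := by linarith
        exact_mod_cast this
    · intro c' _ hne
      rw [hpair c c', h1 c.1 c.2 c'.1 c'.2 (fun h => hne (Subtype.ext h))]
      simp
    · intro h
      exact absurd (mem_univ _) h
  have h4 := hli.fintype_card_le_finrank
  rw [Fintype.card_coe, Module.finrank_fintype_fun_eq_card, Fintype.card_option,
    Fintype.card_fin] at h4
  exact h4

/-! ### tuples of the predicate -/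

theorem p7_0 {s : Fin 12 → Bool} (h : s ∈ P7) (h0 : s 0 = true) : s 5 = true ∧ s 8 = false := by
  obtain ⟨α, β, γ, hne, rfl⟩ := h
  revert α β γ
  decide

theorem p7_8 {s : Fin 12 → Bool} (h : s ∈ P7) (h0 : s 8 = true) : s 1 = true := by
  obtain ⟨α, β, γ, hne, rfl⟩ := h
  revert α β γ
  decide

theorem p7_5 {s : Fin 12 → Bool} (h : s ∈ P7) (h0 : s 5 = true) : s 1 = false := by
  obtain ⟨α, β, γ, hne, rfl⟩ := h
  revert α β γ
  decide

theorem enc_true : enc true true true 0 = true ∧ enc true true true 8 = true ∧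
    enc true true true 5 = false ∧ enc true true true 1 = false := by decide

theorem enc_true_notMem : enc true true true ∉ P7 := by
  rintro ⟨α, β, γ, hne, h⟩
  have h0 := congrFun h 0
  have h4 := congrFun h 4
  revert α β γ
  decide

/-- the upper bound -/
theorem upper (ε : ℝ) (hε : 0 < ε) : ∃ n0 : ℕ, ∀ n : ℕ, n0 ≤ n → ∀ C : Finset (Fin 12 → Fin n),
    NonRedundant P7 C → (C.card : ℝ) ≤ 6 * (n + 1) + 5 * ε * n ^ 2 := by
  classical
  obtain ⟨n0, hn0⟩ := Pool.Agent.X60.NRDCore.core ε hε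
  refine ⟨n0, ?_⟩
  intro n hn C hC
  choose! ψ hψ1 hψ2 using hC
  set D : Fin 6 → Finset (Fin 12 → Fin n) := fun k => C.filter fun c => ev k (ψ c ∘ c) ≠ rhs k
    with hD
  set Z := C.filter fun c => ∀ k, ev k (ψ c ∘ c) = rhs k with hZ
  have hDcard : ∀ k, (D k).card ≤ n + 1 := by
    intro k
    apply linear_bound (D k) (coef k) (rhs k) ψ
    · intro c hc c' hc' hne
      have h1 := mem_filter.1 hc
      have h2 := mem_filter.1 hc'
      obtain ⟨α, β, γ, -, he⟩ := hψ1 c h1.1 c' h2.1 hne
      have h3 := ev_enc k α β γ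
      rw [← he] at h3
      exact h3
    · intro c hc
      exact (mem_filter.1 hc).2
  have hsub : C ⊆ (univ.biUnion D) ∪ Z := by
    intro c hc
    by_cases h : ∀ k, ev k (ψ c ∘ c) = rhs k
    · exact mem_union_right _ (mem_filter.2 ⟨hc, h⟩)
    · push Not at h
      obtain ⟨k, hk⟩ := h
      exact mem_union_left _ (mem_biUnion.2 ⟨k, mem_univ _, mem_filter.2 ⟨hc, hk⟩⟩)
  have hcard : C.card ≤ 6 * (n + 1) + Z.card := by
    refine le_trans (card_le_card hsub) (le_trans (card_union_le _ _) ?_)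
    apply Nat.add_le_add_right
    refine le_trans card_biUnion_le ?_
    calc ∑ k, (D k).card ≤ ∑ _k : Fin 6, (n + 1) := sum_le_sum fun k _ => hDcard k
      _ = 6 * (n + 1) := by simp
  have hZenc : ∀ c ∈ Z, ψ c ∘ c = enc true true true := by
    intro c hc
    have h1 := mem_filter.1 hc
    obtain ⟨α, β, γ, he⟩ := eq_enc h1.2
    have h2 := hψ2 c h1.1
    rcases hb : (α && β && γ) with _ | _
    · exact absurd ⟨α, β, γ, hb, he⟩ h2
    · rw [Bool.and_eq_true, Bool.and_eq_true] at hb
      rw [he, hb.1.1, hb.1.2, hb.2]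
  have hval : ∀ c ∈ Z, ψ c (c 0) = true ∧ ψ c (c 8) = true ∧ ψ c (c 5) = false ∧
      ψ c (c 1) = false := by
    intro c hc
    have h1 := hZenc c hc
    have h2 := enc_true
    rw [← h1] at h2
    exact h2
  have hZcard : (Z.card : ℝ) ≤ 5 * ε * n ^ 2 := by
    apply hn0 n hn _ Z (fun c => c 0) (fun c => c 8) (fun c => c 5) (fun c => c 1)
    · intro c hc c' hc' h0 h8
      by_contra hne
      have hm := hψ1 c (mem_filter.1 hc).1 c' (mem_filter.1 hc').1 (Ne.symm hne)
      obtain ⟨v0, v8, v5, v1⟩ := hval c hc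
      have e0 : (ψ c ∘ c') 0 = true := by
        show ψ c (c' 0) = true
        rw [← h0]; exact v0
      have e8 : (ψ c ∘ c') 8 = true := by
        show ψ c (c' 8) = true
        rw [← h8]; exact v8
      rw [(p7_0 hm e0).2] at e8
      exact absurd e8 (by decide)
    · intro c hc c' hc' h0 h5
      by_contra hne
      have hm := hψ1 c (mem_filter.1 hc).1 c' (mem_filter.1 hc').1 (Ne.symm hne)
      obtain ⟨v0, v8, v5, v1⟩ := hval c hc
      have e0 : (ψ c ∘ c') 0 = true := by
        show ψ c (c' 0) = true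
        rw [← h0]; exact v0
      have e5 : (ψ c ∘ c') 5 = false := by
        show ψ c (c' 5) = false
        rw [← h5]; exact v5
      rw [(p7_0 hm e0).1] at e5
      exact absurd e5 (by decide)
    · intro c hc c' hc' h8 h1
      by_contra hne
      have hm := hψ1 c (mem_filter.1 hc).1 c' (mem_filter.1 hc').1 (Ne.symm hne)
      obtain ⟨v0, v8, v5, v1⟩ := hval c hc
      have e8 : (ψ c ∘ c') 8 = true := by
        show ψ c (c' 8) = true
        rw [← h8]; exact v8
      have e1 : (ψ c ∘ c') 1 = false := by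
        show ψ c (c' 1) = false
        rw [← h1]; exact v1
      rw [p7_8 hm e8] at e1
      exact absurd e1 (by decide)
    · intro c hc c1 hc1 c3 hc3 c' hc' hA hB hE hF
      by_contra hno
      push Not at hno
      obtain ⟨n1, n3⟩ := hno
      obtain ⟨v0, v8, v5, v1⟩ := hval c hc
      have hm1 := hψ1 c (mem_filter.1 hc).1 c1 (mem_filter.1 hc1).1 n1
      have hm3 := hψ1 c (mem_filter.1 hc).1 c3 (mem_filter.1 hc3).1 n3
      have e5 : ψ c (c' 5) = true := by
        have h := (p7_0 hm1 (by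
          show ψ c (c1 0) = true
          rw [show c1 0 = c 0 from hA]; exact v0)).1
        have h' : ψ c (c1 5) = true := h
        rwa [show c1 5 = c' 5 from hE] at h'
      have e1 : ψ c (c' 1) = true := by
        have h := p7_8 hm3 (by
          show ψ c (c3 8) = true
          rw [show c3 8 = c 8 from hB]; exact v8)
        have h' : ψ c (c3 1) = true := h
        rwa [show c3 1 = c' 1 from hF] at h'
      by_cases hcc : c' = c
      · rw [hcc, v5] at e5
        exact absurd e5 (by decide)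
      · have hm := hψ1 c (mem_filter.1 hc).1 c' (mem_filter.1 hc').1 hcc
        have h := p7_5 hm e5
        have h' : ψ c (c' 1) = false := h
        rw [e1] at h'
        exact absurd h' (by decide)
  have hcard' : (C.card : ℝ) ≤ 6 * (n + 1) + Z.card := by exact_mod_cast hcard
  linarith

/-! ### the lower bound -/

section lower

variable {N n : ℕ} (h : 12 * (N * N) ≤ n)

/-- the variable of position `q` and pair `(a, b)` -/
def var (q : Fin 12) (a b : Fin N) : Fin n :=
  Fin.castLE h (finProdFinEquiv (q, finProdFinEquiv (a, b)))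

theorem var_inj {q q' : Fin 12} {a a' b b' : Fin N} (e : var h q a b = var h q' a' b') :
    q = q' ∧ a = a' ∧ b = b' := by
  have h1 := finProdFinEquiv.injective (Fin.castLE_injective h e)
  rw [Prod.mk.injEq] at h1
  have h2 := finProdFinEquiv.injective h1.2
  rw [Prod.mk.injEq] at h2
  exact ⟨h1.1, h2.1, h2.2⟩

/-- first element of the pair at each position -/
def fstOf (t : Fin N × Fin N × Fin N) : Fin 12 → Fin N :=
  ![t.1, t.1, t.1, t.1, t.2.1, t.2.1, t.2.1, t.2.1, t.2.2, t.2.2, t.2.2, t.2.2]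

/-- second element of the pair at each position -/
def sndOf (t : Fin N × Fin N × Fin N) : Fin 12 → Fin N :=
  ![t.2.1, t.2.1, t.2.1, t.2.1, t.2.2, t.2.2, t.2.2, t.2.2, t.1, t.1, t.1, t.1]

/-- the clause of the triple `t` -/
def cl (t : Fin N × Fin N × Fin N) : Fin 12 → Fin n := fun q => var h q (fstOf t q) (sndOf t q)

/-- the one-hot code at each position -/
def code (p r : Bool) : Fin 12 → Bool :=
  ![p && r, p && !r, !p && r, !p && !r, p && r, p && !r, !p && r, !p && !r,
    p && r, p && !r, !p && r, !p && !r]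

theorem cl_injective : Function.Injective (cl (N := N) (n := n) h) := by
  rintro ⟨i, j, k⟩ ⟨i', j', k'⟩ e
  have e0 := var_inj h (congrFun e 0)
  have e4 := var_inj h (congrFun e 4)
  have h1 : i = i' := e0.2.1
  have h2 : j = j' := e0.2.2
  have h3 : k = k' := e4.2.2
  rw [h1, h2, h3]

open Classical in
/-- the assignment of the triple `t` -/
noncomputable def asg (t : Fin N × Fin N × Fin N) (v : Fin n) : Bool :=
  decide (∃ q a b, v = var h q a b ∧
    code (decide (a = fstOf t q)) (decide (b = sndOf t q)) q = true)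

theorem asg_var (t : Fin N × Fin N × Fin N) (q : Fin 12) (a b : Fin N) :
    asg h t (var h q a b) = code (decide (a = fstOf t q)) (decide (b = sndOf t q)) q := by
  unfold asg
  rw [Bool.eq_iff_iff, decide_eq_true_iff]
  constructor
  · rintro ⟨q', a', b', he, hc⟩
    obtain ⟨rfl, rfl, rfl⟩ := var_inj h he
    exact hc
  · intro hc
    exact ⟨q, a, b, rfl, hc⟩

theorem code_enc : ∀ (α β γ : Bool) (q : Fin 12),
    code (![α, α, α, α, β, β, β, β, γ, γ, γ, γ] q) (![β, β, β, β, γ, γ, γ, γ, α, α, α, α] q) q =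
      enc α β γ q := by
  decide

theorem fst_dec (t t' : Fin N × Fin N × Fin N) (α β γ : Bool) (hα : decide (t'.1 = t.1) = α)
    (hβ : decide (t'.2.1 = t.2.1) = β) (hγ : decide (t'.2.2 = t.2.2) = γ) (q : Fin 12) :
    decide (fstOf t' q = fstOf t q) = ![α, α, α, α, β, β, β, β, γ, γ, γ, γ] q := by
  fin_cases q
  · exact hα
  · exact hα
  · exact hα
  · exact hα
  · exact hβ
  · exact hβ
  · exact hβ
  · exact hβ
  · exact hγ
  · exact hγ
  · exact hγ
  · exact hγ

theorem snd_dec (t t' : Fin N × Fin N × Fin N) (α β γ : Bool) (hα : decide (t'.1 = t.1) = α)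
    (hβ : decide (t'.2.1 = t.2.1) = β) (hγ : decide (t'.2.2 = t.2.2) = γ) (q : Fin 12) :
    decide (sndOf t' q = sndOf t q) = ![β, β, β, β, γ, γ, γ, γ, α, α, α, α] q := by
  fin_cases q
  · exact hβ
  · exact hβ
  · exact hβ
  · exact hβ
  · exact hγ
  · exact hγ
  · exact hγ
  · exact hγ
  · exact hα
  · exact hα
  · exact hα
  · exact hα

theorem asg_cl (t t' : Fin N × Fin N × Fin N) :
    asg h t ∘ cl h t' = enc (decide (t'.1 = t.1)) (decide (t'.2.1 = t.2.1))
      (decide (t'.2.2 = t.2.2)) := by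
  funext q
  show asg h t (var h q (fstOf t' q) (sndOf t' q)) = _
  rw [asg_var, fst_dec t t' _ _ _ rfl rfl rfl, snd_dec t t' _ _ _ rfl rfl rfl, code_enc]

include h in
theorem lower : ∃ C : Finset (Fin 12 → Fin n), NonRedundant P7 C ∧ C.card = N ^ 3 := by
  classical
  refine ⟨univ.image (cl h), ?_, ?_⟩
  · intro c hc
    obtain ⟨t, -, rfl⟩ := mem_image.1 hc
    refine ⟨asg h t, ?_, ?_⟩
    · intro c' hc' hne
      obtain ⟨t', -, rfl⟩ := mem_image.1 hc'
      rw [asg_cl]
      refine ⟨_, _, _, ?_, rfl⟩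
      rcases hb : (decide (t'.1 = t.1) && decide (t'.2.1 = t.2.1) && decide (t'.2.2 = t.2.2))
        with _ | _
      · rfl
      · exfalso
        rw [Bool.and_eq_true, Bool.and_eq_true, decide_eq_true_iff, decide_eq_true_iff,
          decide_eq_true_iff] at hb
        apply hne
        rw [show t' = t from Prod.ext hb.1.1 (Prod.ext hb.1.2 hb.2)]
    · rw [asg_cl]
      simp only [decide_true]
      exact enc_true_notMem
  · rw [card_image_of_injective _ (cl_injective h)]
    simp only [card_univ, Fintype.card_prod, Fintype.card_fin]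
    ring

end lower

theorem le_sqrt_bound (n : ℕ) : ((Nat.sqrt (n / 12) : ℕ) : ℝ) / 48 ≤ (NRD P7 n : ℝ) / n := by
  set N := Nat.sqrt (n / 12) with hN
  rcases Nat.eq_zero_or_pos N with h0 | hpos
  · rw [h0]; simp only [Nat.cast_zero, zero_div]; positivity
  · have h1 : N * N ≤ n / 12 := Nat.sqrt_le _
    have h2 : 12 * (N * N) ≤ n := by omega
    have h3 : n / 12 < (N + 1) * (N + 1) := Nat.lt_succ_sqrt _
    obtain ⟨C, hC, hCc⟩ := lower (N := N) (n := n) h2
    have h4 : N ^ 3 ≤ NRD P7 n := by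
      rw [← hCc]; exact le_NRD hC
    have h5 : n ≤ 48 * (N * N) := by
      have h6 : n < 12 * ((N + 1) * (N + 1)) := by omega
      nlinarith
    have hn : 0 < n := lt_of_lt_of_le (by positivity) h2
    rw [div_le_div_iff₀ (by norm_num) (by exact_mod_cast hn)]
    have h7 : N * n ≤ N ^ 3 * 48 := by
      calc N * n ≤ N * (48 * (N * N)) := Nat.mul_le_mul_left _ h5
        _ = N ^ 3 * 48 := by ring
    have h8 : N * n ≤ NRD P7 n * 48 := le_trans h7 (Nat.mul_le_mul_right _ h4)
    exact_mod_cast h8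

theorem tendsto_lower : Tendsto (fun n : ℕ => (NRD P7 n : ℝ) / n) atTop atTop := by
  apply tendsto_atTop_mono le_sqrt_bound
  rw [tendsto_atTop]
  intro b
  rw [eventually_atTop]
  refine ⟨12 * (⌈48 * b⌉₊ * ⌈48 * b⌉₊), ?_⟩
  intro n hn
  have h1 : ⌈48 * b⌉₊ ≤ Nat.sqrt (n / 12) := by
    rw [Nat.le_sqrt]
    omega
  have h2 : (48 * b) ≤ ((Nat.sqrt (n / 12) : ℕ) : ℝ) := le_trans (Nat.le_ceil _) (by exact_mod_cast h1)
  rw [le_div_iff₀ (by norm_num)]
  linarith

theorem tendsto_upper : Tendsto (fun n : ℕ => (NRD P7 n : ℝ) / (n : ℝ) ^ 2) atTop (𝓝 0) := by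
  rw [Metric.tendsto_atTop]
  intro ε hε
  obtain ⟨n0, hn0⟩ := upper (ε / 20) (by positivity)
  obtain ⟨m, hm⟩ : ∃ m : ℕ, 24 / ε < m := exists_nat_gt _
  refine ⟨max n0 (m + 1), ?_⟩
  intro n hn
  have hn1 : n0 ≤ n := le_trans (le_max_left _ _) hn
  have hn2 : m + 1 ≤ n := le_trans (le_max_right _ _) hn
  obtain ⟨C, hC, hCc⟩ := exists_NRD P7 n
  have h1 := hn0 n hn1 C hC
  rw [hCc] at h1
  have hnpos : (0 : ℝ) < n := by
    have : 0 < n := by omega
    exact_mod_cast this
  have hn3 : 24 / ε < (n : ℝ) := lt_trans hm (by exact_mod_cast (by omega : m < n))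
  have hn4 : (1 : ℝ) ≤ n := by exact_mod_cast (by omega : 1 ≤ n)
  have h2 : 24 < ε * n := by
    rw [div_lt_iff₀ hε] at hn3
    linarith
  rw [Real.dist_eq, sub_zero, abs_of_nonneg (by positivity), div_lt_iff₀ (by positivity)]
  have h3 : 24 * (n : ℝ) < ε * n * n := mul_lt_mul_of_pos_right h2 hnpos
  have h4 : (n : ℝ) ^ 2 = n * n := pow_two _
  rw [h4] at h1 ⊢
  have h5 : 0 < ε * (n * n) := by positivity
  nlinarith

/-- There is a Boolean predicate `P` of arity `12` whose non-redundancy is at least `N ^ 3` on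
`12 N ^ 2` variables, grows faster than `n`, and slower than `n ^ 2`. -/
theorem result : ∃ P : Set (Fin 12 → Bool),
    (∀ N : ℕ, N ^ 3 ≤ NRD P (12 * N ^ 2)) ∧
    Tendsto (fun n : ℕ => (NRD P n : ℝ) / n) atTop atTop ∧
    Tendsto (fun n : ℕ => (NRD P n : ℝ) / (n : ℝ) ^ 2) atTop (𝓝 0) := by
  refine ⟨P7, ?_, tendsto_lower, tendsto_upper⟩
  intro N
  obtain ⟨C, hC, hCc⟩ := lower (N := N) (n := 12 * N ^ 2) (by rw [pow_two])
  rw [← hCc]
  exact le_NRD hC

end Pool.Agent.Results.MP_7c0615_lc.BetweenLinearAndQuadratic
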